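import Pool.Agent.LSG.Stmts

/-!
Row CRD of squad LSG: at most continuum many pairs (measurable set, measurable map).
-/

set_option autoImplicit false

open MeasureTheory Set Topology Cardinal

namespace Pool.Agent.LSG.H2

/-- There are at most continuum many measurable sets in `K`. -/
theorem card_meas : #{t : Set K // MeasurableSet t} ≤ continuum := by
  have h : #{t : Set K // @MeasurableSet K
      (MeasurableSpace.generateFrom (MeasurableSpace.countableGeneratingSet K)) t} ≤ continuum := by
    apply MeasurableSpace.cardinal_measurableSet_le_continuum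
    exact (le_aleph0_iff_set_countable.2
      (MeasurableSpace.countable_countableGeneratingSet (α := K))).trans aleph0_le_continuum
  rw [MeasurableSpace.generateFrom_countableGeneratingSet (α := K)] at h
  exact h

/-- An element of `ZMod 2` is `0` or `1`. -/
theorem zmod_two (a : ZMod 2) : a = 0 ∨ a = 1 := by
  revert a
  decide

/-- The code of a pair. -/
def code (p : {p : Set K × (K → K) // MeasurableSet p.1 ∧ Measurable p.2}) :
    {t : Set K // MeasurableSet t} × (ℕ → {t : Set K // MeasurableSet t}) :=
  (⟨p.1.1, p.2.1⟩, fun n => ⟨{x | p.1.2 x n = 1},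
    ((measurable_pi_apply n).comp p.2.2) (measurableSet_singleton (1 : ZMod 2))⟩)

theorem code_injective : Function.Injective code := by
  intro p q h
  have h1 : p.1.1 = q.1.1 := congrArg (fun r => (r.1.1 : Set K)) h
  have h2 : ∀ n, {x | p.1.2 x n = 1} = {x | q.1.2 x n = 1} := fun n =>
    congrArg (fun r => ((r.2 n).1 : Set K)) h
  apply Subtype.ext
  apply Prod.ext h1
  funext x n
  have h3 : p.1.2 x n = 1 ↔ q.1.2 x n = 1 := by
    have := Set.ext_iff.1 (h2 n) x
    simpa using this
  rcases zmod_two (p.1.2 x n) with hp | hp <;> rcases zmod_two (q.1.2 x n) with hq | hq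
  · rw [hp, hq]
  · rw [hq, hp] at h3
    exact absurd (h3.2 rfl) (by decide)
  · rw [hp, hq] at h3
    exact absurd (h3.1 rfl) (by decide)
  · rw [hp, hq]

/-- CRD. -/
theorem crd : CrdStmt := by
  unfold CrdStmt
  refine (mk_le_of_injective code_injective).trans ?_
  rw [mk_prod, lift_id, lift_id, mk_arrow, lift_id, lift_id, mk_nat]
  calc #{t : Set K // MeasurableSet t} * #{t : Set K // MeasurableSet t} ^ ℵ₀
      ≤ continuum * continuum ^ ℵ₀ :=
        mul_le_mul' card_meas (Cardinal.power_le_power_right card_meas)
    _ = continuum := by rw [continuum_power_aleph0, continuum_mul_self]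

end Pool.Agent.LSG.H2
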